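import Pool.Agent.MP_3fc7f4_gt.Defs

/-! Scalar curvature, the norm of the Ricci tensor and the two elementary symmetric functions of
the Schouten tensor of a Riemannian three-manifold, each computed at x in the chart at x. -/

namespace Pool.Agent.MP_9bd639_gt.H87

open Pool.Agent.MP_3fc7f4_gt

variable (N : PointedRiem 3)

/-- The matrix of the endomorphism g⁻¹ Ric at x, in the chart at x. -/
noncomputable def ricEnd (x : N.M) : Matrix (Fin 3) (Fin 3) ℝ :=
  (coef x (chartAt (Euc 3) x x))⁻¹ *
    Matrix.of fun i j => ricci (coef x) i j (chartAt (Euc 3) x x)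

/-- The scalar curvature R. -/
noncomputable def scal (x : N.M) : ℝ := (ricEnd N x).trace

/-- The squared norm of the Ricci tensor. -/
noncomputable def ricSq (x : N.M) : ℝ := (ricEnd N x * ricEnd N x).trace

/-- σ₁ = R / 4. -/
noncomputable def sigma1 (x : N.M) : ℝ := scal N x / 4

/-- σ₂ = (-|Ric|² + (3/8) R²) / 2. -/
noncomputable def sigma2 (x : N.M) : ℝ := (1 / 2) * (-ricSq N x + 3 / 8 * scal N x ^ 2)

end Pool.Agent.MP_9bd639_gt.H87
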